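import Pool.Agent.H73.GWT.Stmts

/-! Board `gwt`, row INV: the invariant of the state. -/

set_option autoImplicit false

open Classical

namespace GWT

variable {ι G V : Type*} [Fintype ι] [Group G] [MulAction G V] (C : Code ι G V)

theorem INV (h1 : GSTStmt C) (h2 : OKTStmt C) (h3 : POKStmt C) : INVStmt C := by
  intro w l
  induction l with
  | nil =>
    refine ⟨?_, ?_⟩
    · simp only [St, full]
    · simp only [St, Ok]
  | cons x l ih =>
    obtain ⟨hf, hok⟩ := ih
    have hΛ := C.Λ_pos
    by_cases hg : Good C w x l
    · have hS : St C w (x :: l) = ((x, []) :: (St C w l).1, (St C w l).2) := by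
        rw [St, if_pos hg]
      rw [hS]
      have hg' : ¬ LB C (W C w l) x ∧ ¬ RB C x (w (l.length + 1)) := hg
      obtain ⟨g1, g2, g3, g4, g5⟩ := h1 (W C w l) (w (l.length + 1)) x hg'.1 hg'.2
      have hW : W C w (x :: l) = W C w l * C.c x ^ 4 * w (l.length + 1) := rfl
      refine ⟨?_, ?_⟩
      · simp only [full, List.nil_append, hf]
      · simp only [Ok, pos, hf, hW]
        refine ⟨?_, g1, g2, g3, ?_⟩
        · have g4' := g4
          omega
        · rcases hF : (St C w l).1 with _ | ⟨f, F₁⟩
          · simp only [Ok]
          · rw [← hF]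
            refine h2 w (W C w l • C.o) _ (St C w l).1 (St C w l).2 _ _ hok ?_
            intro p hp hpR
            have hR : 0 < C.d C.o (W C w l • C.o) - C.Λ := by
              rw [hF] at hok
              simp only [Ok] at hok
              have := hok.1
              omega
            exact g5 p hp (by omega)
    · have hS : St C w (x :: l) =
          (pop C w (W C w l) (bet C w x l) (ini (LB C (W C w l) x) x (St C w l).1).1
            (ini (LB C (W C w l) x) x (St C w l).1).2.1 (St C w l).2).2 := by
        rw [St, if_neg hg]
      have hini : (∃ R : ℕ, Ok C w (W C w l • C.o) (ini (LB C (W C w l) x) x (St C w l).1).1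
            (St C w l).2 R) ∧
          (ini (LB C (W C w l) x) x (St C w l).1).2.1 ++
            full (ini (LB C (W C w l) x) x (St C w l).1).1 (St C w l).2 = x :: l := by
        rcases hF : (St C w l).1 with _ | ⟨f, F₁⟩
        · rw [hF] at hok hf
          simp only [full] at hf
          refine ⟨⟨0, ?_⟩, ?_⟩
          · simp only [ini, Ok]
          · simp only [ini, full, hf, List.singleton_append]
        · rw [hF] at hok hf
          by_cases hlb : LB C (W C w l) x
          · refine ⟨⟨pos C w f.1 (full F₁ (St C w l).2), ?_⟩, ?_⟩
            · simp only [ini, if_pos hlb]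
              simp only [Ok] at hok
              exact hok.2.2.2.2
            · simp only [ini, if_pos hlb]
              simp only [full] at hf
              have e : x :: (f.2 ++ [f.1]) ++ full F₁ (St C w l).2 =
                  x :: (f.2 ++ f.1 :: full F₁ (St C w l).2) := by simp
              rw [e, hf]
          · refine ⟨⟨C.d C.o (W C w l • C.o) - C.Λ, ?_⟩, ?_⟩
            · simp only [ini, if_neg hlb]
              exact hok
            · simp only [ini, if_neg hlb, hf, List.singleton_append]
      obtain ⟨⟨R, hR⟩, hfull⟩ := hini
      obtain ⟨p1, p2, p3⟩ := h3 w (W C w l) (bet C w x l) (W C w l • C.o) (W C w (x :: l) • C.o)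
        (ini (LB C (W C w l) x) x (St C w l).1).1 (ini (LB C (W C w l) x) x (St C w l).1).2.1
        (St C w l).2 R hR
        (fun p hp hpb => CEN1 C.tree hp hpb)
        (CEN3 C.tree _ _ _)
      rw [hS]
      exact ⟨p2.trans hfull, p1⟩

end GWT
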